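import Mathlib

/-! Fast contract-signing protocols in which nobody pays more than `3 √N`. -/

namespace Pool.Agent.X225.Fc

open Finset

/-- Fast protocols for `N` parties: `P n d` is the party holding contract `n` on day `d`, and on
day `N - 1` contract `n` is with its owner. -/
def IsFast {N : ℕ} (P : Fin N → Equiv.Perm (Fin N)) : Prop :=
  ∀ (n d : Fin N), (d : ℕ) + 1 = N → P n d = n

/-- The pairs `(d, j)` such that party `i` sends an envelope to party `j` on day `d`. -/
def sends {N : ℕ} (P : Fin N → Equiv.Perm (Fin N)) (i : Fin N) : Set (Fin N × Fin N) :=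
  {p | ∃ (d' n : Fin N), (p.1 : ℕ) + 1 = d' ∧ P n p.1 = i ∧ P n d' = p.2}

/-- The amount paid by party `i`. -/
noncomputable def cost {N : ℕ} (P : Fin N → Equiv.Perm (Fin N)) (i : Fin N) : ℕ :=
  (sends P i).ncard

section

variable (q : ℕ) [NeZero q]

/-- Where the contract of the party `(y, m)` is on day `(s, r)`. -/
def pos (a : Fin q × Fin q) (d : Fin q × Fin q) : Fin q × Fin q :=
  (a.1 + (d.1 + 1), if d.1 + 1 = 0 then a.2 + (d.2 + 1) else d.2)

lemma pos_inj (a : Fin q × Fin q) : Function.Injective (pos q a) := by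
  rintro ⟨s, r⟩ ⟨s', r'⟩ h
  simp only [pos, Prod.mk.injEq] at h
  obtain ⟨h1, h2⟩ := h
  have hs : s = s' := add_right_cancel (add_left_cancel h1)
  subst hs
  by_cases h0 : s + 1 = 0
  · simp only [h0, if_true] at h2
    have := add_right_cancel (add_left_cancel h2)
    rw [this]
  · simp only [h0, if_false] at h2
    rw [h2]

/-- The protocol. -/
noncomputable def prot (n : Fin (q * q)) : Equiv.Perm (Fin (q * q)) :=
  (finProdFinEquiv.symm.trans
    (Equiv.ofBijective (pos q (finProdFinEquiv.symm n))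
      (Finite.injective_iff_bijective.1 (pos_inj q _)))).trans finProdFinEquiv

lemma prot_apply (a d : Fin q × Fin q) :
    prot q (finProdFinEquiv a) (finProdFinEquiv d) = finProdFinEquiv (pos q a d) := by
  simp [prot]

lemma val_one (h : 2 ≤ q) : ((1 : Fin q) : ℕ) = 1 := by
  rw [Fin.val_one']
  exact Nat.mod_eq_of_lt (by omega)

lemma last_add (x : Fin q) (h : (x : ℕ) + 1 = q) : x + 1 = 0 := by
  apply Fin.ext
  rw [Fin.val_add, Fin.val_zero]
  by_cases hk : 2 ≤ q
  · rw [val_one q hk, h]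
    simp
  · have h1 : q = 1 := by have := NeZero.ne q; omega
    have : ∀ t : ℕ, t % q = 0 := by intro t; rw [h1]; exact Nat.mod_one t
    exact this _

lemma isFast_prot : IsFast (prot q) := by
  intro n d hd
  obtain ⟨a, rfl⟩ := finProdFinEquiv.surjective n
  obtain ⟨⟨s, r⟩, rfl⟩ := finProdFinEquiv.surjective d
  rw [prot_apply]
  have hs := s.2
  have hr := r.2
  have hv : ((finProdFinEquiv (s, r) : Fin (q * q)) : ℕ) = r + q * s := rfl
  rw [hv] at hd
  have h1 : (s : ℕ) + 1 = q := by
    by_contra hne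
    have : (s : ℕ) + 2 ≤ q := by omega
    nlinarith
  have h2 : (r : ℕ) + 1 = q := by
    have : q * ((s : ℕ) + 1) = q * q := by rw [h1]
    rw [Nat.mul_add, Nat.mul_one] at this
    omega
  have e1 := last_add q s h1
  have e2 := last_add q r h2
  simp [pos, e1, e2]

/-- The day after `(s, r)`. -/
lemma next_day (s r s' r' : Fin q)
    (h : ((finProdFinEquiv (s, r) : Fin (q * q)) : ℕ) + 1 =
      ((finProdFinEquiv (s', r') : Fin (q * q)) : ℕ)) :
    ((r : ℕ) + 1 < q ∧ s' = s ∧ r' = r + 1) ∨ ((r : ℕ) + 1 = q ∧ s' = s + 1 ∧ r' = 0 ∧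
      (s : ℕ) + 1 < q) := by
  have hs := s.2
  have hr := r.2
  have hs' := s'.2
  have hr' := r'.2
  have h0 : (r : ℕ) + q * s + 1 = r' + q * s' := h
  have hval : ∀ x : Fin q, (x : ℕ) + 1 < q → ((x + 1 : Fin q) : ℕ) = x + 1 := by
    intro x hx
    rw [Fin.val_add]
    have h1 : ((1 : Fin q) : ℕ) = 1 := val_one q (by omega)
    rw [h1, Nat.mod_eq_of_lt hx]
  by_cases hc : (r : ℕ) + 1 < q
  · left
    have h1 : (s' : ℕ) = s := by
      rcases Nat.lt_trichotomy (s' : ℕ) s with h2 | h2 | h2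
      · nlinarith
      · exact h2
      · nlinarith
    have h2 : (r' : ℕ) = r + 1 := by rw [h1] at h0; omega
    exact ⟨hc, Fin.ext h1, Fin.ext (by rw [h2, hval r hc])⟩
  · right
    have hc' : (r : ℕ) + 1 = q := by omega
    have h1 : (s' : ℕ) = s + 1 := by
      rcases Nat.lt_trichotomy (s' : ℕ) (s + 1) with h2 | h2 | h2
      · have : (s' : ℕ) ≤ s := by omega
        nlinarith
      · exact h2
      · have : (s : ℕ) + 2 ≤ s' := by omega
        nlinarith
    have h2 : (r' : ℕ) = 0 := by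
      rw [h1] at h0
      have : q * ((s : ℕ) + 1) = q * s + q := by ring
      omega
    refine ⟨hc', Fin.ext (by rw [h1, hval s (by omega)]), Fin.ext (by rw [h2]; simp), by omega⟩

/-- The three kinds of envelopes. -/
def env (x j : Fin q) : (Fin q ⊕ Fin q) ⊕ Fin q → (Fin (q * q) × Fin (q * q))
  | Sum.inl (Sum.inl s) => (finProdFinEquiv (s, j),
      finProdFinEquiv (if j + 1 = 0 then (x + 1, 0) else (x, j + 1)))
  | Sum.inl (Sum.inr m) => (finProdFinEquiv (-1 - 1, j), finProdFinEquiv (x + 1, m))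
  | Sum.inr r => (finProdFinEquiv (-1, r), finProdFinEquiv (x, j + 1))

lemma sends_subset (x j : Fin q) :
    sends (prot q) (finProdFinEquiv (x, j)) ⊆ Set.range (env q x j) := by
  rintro ⟨d, t⟩ ⟨d', n, h1, h2, h3⟩
  obtain ⟨⟨y, m⟩, rfl⟩ := finProdFinEquiv.surjective n
  obtain ⟨⟨s, r⟩, rfl⟩ := finProdFinEquiv.surjective d
  obtain ⟨⟨s', r'⟩, rfl⟩ := finProdFinEquiv.surjective d'
  obtain ⟨t, rfl⟩ := finProdFinEquiv.surjective t
  simp only at h1 h2 h3
  rw [prot_apply, finProdFinEquiv.apply_eq_iff_eq] at h2 h3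
  simp only [pos, Prod.mk.injEq] at h2
  obtain ⟨h4, h5⟩ := h2
  subst h3
  rcases next_day q s r s' r' h1 with ⟨hr, rfl, rfl⟩ | ⟨hr, rfl, rfl, hs⟩
  · -- within a block
    have hr1 : r + 1 ≠ 0 := by
      intro h0
      have := congrArg Fin.val h0
      rw [Fin.val_add, Fin.val_zero] at this
      have h1' : ((1 : Fin q) : ℕ) = 1 := val_one q (by omega)
      rw [h1', Nat.mod_eq_of_lt hr] at this
      omega
    by_cases h0 : s' + 1 = 0
    · -- the last block
      refine ⟨Sum.inr r, ?_⟩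
      have hs : s' = -1 := eq_neg_of_add_eq_zero_left h0
      rw [if_pos h0] at h5
      simp only [env, pos, Prod.mk.injEq, EmbeddingLike.apply_eq_iff_eq]
      refine ⟨⟨hs.symm, trivial⟩, h4.symm, ?_⟩
      rw [if_pos h0, ← h5]
      simp only [add_assoc]
    · refine ⟨Sum.inl (Sum.inl s'), ?_⟩
      rw [if_neg h0] at h5
      subst h5
      simp only [env, pos, Prod.mk.injEq, EmbeddingLike.apply_eq_iff_eq, if_neg hr1, if_neg h0,
        true_and]
      exact ⟨h4.symm, trivial⟩
  · have hr1 : r + 1 = 0 := last_add q r hr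
    have hs0 : s + 1 ≠ 0 := by
      intro h0
      have := congrArg Fin.val h0
      rw [Fin.val_add, Fin.val_zero] at this
      have h1' : ((1 : Fin q) : ℕ) = 1 := val_one q (by omega)
      rw [h1', Nat.mod_eq_of_lt hs] at this
      omega
    rw [if_neg hs0] at h5
    subst h5
    by_cases h0 : s + 1 + 1 = 0
    · -- entering the last block
      refine ⟨Sum.inl (Sum.inr (m + (0 + 1))), ?_⟩
      have hs : s = -1 - 1 := by
        rw [eq_sub_iff_add_eq, eq_neg_iff_add_eq_zero]; exact h0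
      simp only [env, pos, Prod.mk.injEq, EmbeddingLike.apply_eq_iff_eq, if_pos h0]
      refine ⟨⟨hs.symm, trivial⟩, ?_, trivial⟩
      rw [← h4]
      simp only [add_assoc]
    · refine ⟨Sum.inl (Sum.inl s), ?_⟩
      simp only [env, pos, Prod.mk.injEq, EmbeddingLike.apply_eq_iff_eq, if_neg h0, if_pos hr1,
        true_and]
      refine ⟨?_, trivial⟩
      rw [← h4]
      simp only [add_assoc]

lemma cost_le (i : Fin (q * q)) : cost (prot q) i ≤ 3 * q := by
  obtain ⟨⟨x, j⟩, rfl⟩ := finProdFinEquiv.surjective i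
  unfold cost
  refine (Set.ncard_le_ncard (sends_subset q x j) (Set.toFinite _)).trans ?_
  rw [← Set.image_univ]
  refine (Set.ncard_image_le (Set.toFinite _)).trans ?_
  rw [Set.ncard_univ, Nat.card_eq_fintype_card]
  simp only [Fintype.card_sum, Fintype.card_fin]
  omega

end

end Pool.Agent.X225.Fc
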